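import Pool.Agent.Q312.FC.Per

/-!
# Hindman's theorem and the factor complexity of the colouring

A colouring `c` of the natural numbers is an infinite word.  Its factor complexity is the function
which maps `n` to the number of factors (blocks of consecutive colours) of length `n`, and its orbit
closure is the closure of the set of all its shifts `x ↦ c (a + x)` in the space of all colourings.

For colourings of almost linear factor complexity Hindman's theorem is as hard as it is in general:
for every computable, monotone and unbounded function `h` some computable map `φ` transforms any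
colouring `c` into a colouring `c ∘ φ` with at most `n h(n)` factors of length `n`, for all large `n`
(so its topological entropy is zero), such that the solutions for `c` and for `c ∘ φ` are transformed
into each other by computations.  In contrast every colouring with a countable orbit closure, or
with a periodic point in the orbit closure, has a solution which is computable from it.

Proof.  The colourings of small memory of `MemoryThreshold` (`Pool.Agent.Y545.HM`) have few factors: a
factor of length at most `2 ^ m` of a colouring of memory `W` at the cut `m` is determined by its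
position modulo `2 ^ m` and by two functions from the set of the `W` classes to the colours.  A
countable orbit closure contains a minimal closed invariant set, which has an isolated point by
Baire's theorem, and this point is periodic.
-/

set_option autoImplicit false

namespace Pool.Agent.Results.MP_69fea5_lc.FactorComplexity

open Pool.Agent.Y545.HM Pool.Agent.Y545.HM.St Pool.Agent.Helper446.Oracle Filter
open Pool.Agent.Q312.FC (factors OrbitClosure wOf)

theorem mono_wOf {h : ℕ → ℕ} (hmono : Monotone h) : Monotone (wOf h) := by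
  intro a b hab
  unfold wOf
  refine Nat.add_le_add_left (Nat.log_mono_right (Nat.log_mono_right (hmono ?_))) _
  exact Nat.pow_le_pow_right (by omega) (by omega)

theorem unb_wOf {h : ℕ → ℕ} (hmono : Monotone h) (hub : ∀ B, ∃ m, B ≤ h m) (B : ℕ) :
    ∃ m, B ≤ wOf h m := by
  obtain ⟨n, hn⟩ := hub (2 ^ (2 ^ B))
  refine ⟨n + 1, ?_⟩
  unfold wOf
  have h1 : 2 ^ (2 ^ B) ≤ h (2 ^ (n + 1 - 1)) := hn.trans (hmono (by
    rw [Nat.add_sub_cancel]
    exact Nat.lt_two_pow_self.le))
  have h2 := Nat.log_mono_right (b := 2) h1
  rw [Nat.log_pow (by omega)] at h2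
  have h3 := Nat.log_mono_right (b := 2) h2
  rw [Nat.log_pow (by omega)] at h3
  omega

theorem primrec_two_pow : Primrec fun i : ℕ => 2 ^ i := by
  have h : Primrec fun i : ℕ => (Nat.rec (motive := fun _ => ℕ) 1 (fun _ r => r * 2) i : ℕ) :=
    Primrec.nat_rec₁ 1 (Primrec.nat_mul.comp (Primrec.snd) (Primrec.const 2)).to₂
  refine h.of_eq fun i => ?_
  induction i with
  | zero => rfl
  | succ i ih =>
    rw [pow_succ, ← ih]

theorem log_eq_find (n : ℕ) : Nat.log 2 n = ((List.range n).filter fun j => 2 ^ (j + 1) ≤ n).length := by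
  have h1 : ((List.range n).filter fun j => 2 ^ (j + 1) ≤ n) = List.range (Nat.log 2 n) := by
    rcases Nat.eq_zero_or_pos n with h0 | h0
    · subst h0
      simp
    · have e : ∀ j, 2 ^ (j + 1) ≤ n ↔ j < Nat.log 2 n := by
        intro j
        rw [← Nat.le_log_iff_pow_le (by omega) (by omega)]
        omega
      have hle : Nat.log 2 n ≤ n := (Nat.log_lt_self 2 (by omega)).le
      obtain ⟨r, hr⟩ := Nat.exists_eq_add_of_le hle
      have e2 : (List.range n).filter (fun j => decide (2 ^ (j + 1) ≤ n)) =
          (List.range n).filter (fun j => decide (j < Nat.log 2 n)) :=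
        List.filter_congr fun j _ => by rw [decide_eq_decide]; exact e j
      rw [e2]
      generalize Nat.log 2 n = l at *
      subst hr
      rw [List.range_add, List.filter_append]
      have e3 : (List.range l).filter (fun j => decide (j < l)) = List.range l :=
        List.filter_eq_self.2 fun j hj => decide_eq_true (List.mem_range.1 hj)
      have e4 : ((List.range r).map (fun x => l + x)).filter (fun j => decide (j < l)) = [] := by
        rw [List.filter_eq_nil_iff]
        intro j hj
        obtain ⟨x, _, rfl⟩ := List.mem_map.1 hj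
        simp
      rw [e3, e4, List.append_nil]
  rw [h1, List.length_range]

theorem computable_log : Computable fun n : ℕ => Nat.log 2 n := by
  have h : Primrec fun n : ℕ => ((List.range n).filter fun j => 2 ^ (j + 1) ≤ n).length := by
    refine Primrec.list_length.comp ?_
    have h1 : PrimrecRel fun (j n : ℕ) => 2 ^ (j + 1) ≤ n :=
      Primrec.nat_le.comp (primrec_two_pow.comp (Primrec.succ.comp Primrec.fst)) Primrec.snd
    exact (PrimrecRel.listFilter h1).comp Primrec.list_range Primrec.id
  exact (h.of_eq fun n => (log_eq_find n).symm).to_comp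

theorem gr_wOf {A : Set ℕ} {h : ℕ → ℕ} (hh : Gr A h) : Gr A (wOf h) := by
  have h1 : Computable fun m : ℕ => 2 ^ (m - 1) :=
    (primrec_two_pow.comp (Primrec.nat_sub.comp Primrec.id (Primrec.const 1))).to_comp
  have h2 : Computable fun v : ℕ => 2 + Nat.log 2 (Nat.log 2 v) :=
    Primrec.nat_add.to_comp.comp (Computable.const 2) (computable_log.comp computable_log)
  exact Gr.post h2 (hh.pre h1)

theorem dom_wOf {A : Set ℕ} {h : ℕ → ℕ} (hh : Computes A (fun n => Part.some (h n)))
    (hmono : Monotone h) (hub : ∀ B, ∃ m, B ≤ h m) : Dominates A (wOf h) :=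
  ⟨wOf h, computes_fun.2 (gr_wOf (computes_fun.1 hh)), unb_wOf hmono hub, fun _ => le_rfl⟩

theorem two_le_wOf (h : ℕ → ℕ) : 2 ≤ wOf h 0 := Nat.le_add_right _ _

/-- **Hindman's theorem and factor complexity.** -/
theorem result :
    -- (1) almost linear factor complexity: as hard as arbitrary colourings
    (∀ (A : Set ℕ) (h : ℕ → ℕ), Computes A (fun n => Part.some (h n)) → Monotone h →
      (∀ B, ∃ m, B ≤ h m) →
      ∃ φ : ℕ → ℕ, Computes A (fun n => Part.some (φ n)) ∧ (∀ n, 0 < n → 0 < φ n) ∧
        ∀ (k : ℕ) (c : ℕ → Fin k),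
          (∀ᶠ n in atTop, (factors (c ∘ φ) n).ncard ≤ n * h n) ∧
          (∀ Y, Solution (c ∘ φ) Y → ∃ X, Solution c X ∧ Computes (Join A Y) (char X)) ∧
          ∀ X, Solution c X → ∃ Y, Solution (c ∘ φ) Y ∧ Computes (Join A X) (char Y)) ∧
    -- (2) the strength over `ω`-models
    (∀ I : Set (Set ℕ), Ideal I → ∀ A ∈ I, ∀ h : ℕ → ℕ, Computes A (fun n => Part.some (h n)) →
      Monotone h → (∀ B, ∃ m, B ≤ h m) →
      (HT I (fun _ c => ∀ᶠ n in atTop, (factors c n).ncard ≤ n * h n) ↔
        HT I fun _ _ => True)) ∧
    -- (3) countable orbit closure: a solution computable from the colouring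
    (∀ (A : Set ℕ) (k : ℕ) (c : ℕ → Fin k), Computes A (fun n => Part.some (c n).val) →
      ((OrbitClosure c).Countable → ∃ x ∈ OrbitClosure c, ∃ d, 0 < d ∧ ∀ t, x (t + d) = x t) ∧
      ((∃ x ∈ OrbitClosure c, ∃ d, 0 < d ∧ ∀ t, x (t + d) = x t) →
        ∃ X, Solution c X ∧ Computes A (char X))) := by
  refine ⟨?_, ?_, ?_⟩
  · intro A h hh hmono hub
    obtain ⟨φ, h1, h3, h4⟩ := large (mono_wOf hmono) (two_le_wOf h)
      (dominates_iff.1 (dom_wOf hh hmono hub))
    refine ⟨φ, computes_fun.2 h1, h3, fun k c => ⟨?_, fun Y hY => ?_, fun X hX => ?_⟩⟩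
    · exact Pool.Agent.Q312.FC.eventually_small (c ∘ φ) h hmono hub (h4 k c).1
    · obtain ⟨X, hX, hXd⟩ := (h4 k c).2.1 (join A Y) Y dec_left dec_right hY
      exact ⟨X, hX, computes_set.2 hXd⟩
    · obtain ⟨Y, hY, hYd⟩ := (h4 k c).2.2 (join A X) X dec_left dec_right hX
      exact ⟨Y, hY, computes_set.2 hYd⟩
  · intro I hI A hA h hh hmono hub
    constructor
    · intro hHT
      have hm : HT I (fun _ c => ∀ m, Memory c m (wOf h m)) := by
        intro k c hc hmem
        exact hHT k c hc (Pool.Agent.Q312.FC.eventually_small c h hmono hub hmem)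
      rw [ht_iff] at hm ⊢
      exact (class_mem (ideal_iff.1 hI) (mono_wOf hmono) (two_le_wOf h)).1 hm
        (dom_iff.1 ⟨A, hA, dom_wOf hh hmono hub⟩)
    · intro hHT k c hc _
      exact hHT k c hc trivial
  · intro A k c hc
    refine ⟨fun hcount => Pool.Agent.Q312.FC.exists_periodic c hcount, ?_⟩
    rintro ⟨x, hx, d, hd, hper⟩
    obtain ⟨X, hX, hXd⟩ := Pool.Agent.Q312.FC.periodic_solution (computes_col.1 hc) hd hper
      (Pool.Agent.Q312.FC.mem_orb hx)
    exact ⟨X, hX, computes_set.2 hXd⟩

end Pool.Agent.Results.MP_69fea5_lc.FactorComplexity
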