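import Pool.Agent.Q332.HinIndex2
import Pool.Agent.TH747.HS.FS

/-!
# The colourings with computable solutions form a `Σ⁰₃`-complete index set

1. For every computable colouring `c₀` with `k` colours and every `Σ⁰₃` set `S` there is a
uniformly computable sequence `c_n` of colourings with `k + 1` colours such that `c_n` has a
computable solution of Hindman's theorem for `n ∈ S`, while for `n ∉ S` every solution for `c_n`
is a solution for `c₀`; the latter also holds for the sets which are homogeneous for sums of at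
most `r ≥ 2` elements only.
2. With a suitable `c₀` (of the starting files) the `c_n` have three colours, and for `n ∉ S` no
solution for `c_n` is `Σ⁰₄` and every solution computes a function which is diagonally
noncomputable relative to `0'''`.
3. For every uniformly computable sequence of colourings the set of the `n` such that the `n`-th
colouring has a computable solution is `Σ⁰₃`, also for sums of at most `r` elements.
-/

set_option autoImplicit false

namespace Pool.Agent.Results.MP_69fea5_lc.IndexSet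

open Pool.Agent.H645R2.HT Pool.Agent.TH747.HS

/-- The characteristic function of a set of natural numbers, as a (total) partial function. -/
noncomputable def char (B : Set ℕ) : ℕ →. ℕ := by
  classical exact fun n => Part.some (if n ∈ B then 1 else 0)

/-- `X` is an infinite set of positive integers all of whose sums of at most `r` distinct
elements have the same colour (`r = ⊤`: all finite sums, Hindman's theorem). -/
def Homogeneous {k : ℕ} (r : ℕ∞) (c : ℕ → Fin k) (X : Set ℕ) : Prop :=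
  X.Infinite ∧ 0 ∉ X ∧ ∃ j, ∀ F : Finset ℕ, (F : Set ℕ) ⊆ X → F.Nonempty → (F.card : ℕ∞) ≤ r →
    c (∑ x ∈ F, x) = j

/-- The `Σ⁰₃` statement about `n` which is presented by `R`. -/
def Sigma3 (R : ℕ → ℕ → ℕ → ℕ → Bool) (n : ℕ) : Prop := ∃ a, ∀ b, ∃ t, R n a b t = true

/-- **The index set of the colourings with computable solutions.** -/
theorem result :
    -- the reduction for an arbitrary computable colouring
    (∀ (k : ℕ) (c₀ : ℕ → Fin k), Computable c₀ → ∀ R : ℕ → ℕ → ℕ → ℕ → Bool,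
      Computable (fun x : ℕ × ℕ × ℕ × ℕ => R x.1 x.2.1 x.2.2.1 x.2.2.2) →
        ∃ c : ℕ → ℕ → Fin (k + 1), Computable (fun p : ℕ × ℕ => c p.1 p.2) ∧ ∀ n,
          (Sigma3 R n → ∃ X, Homogeneous ⊤ (c n) X ∧ ComputablePred fun x => x ∈ X) ∧
          (¬ Sigma3 R n → ∀ r : ℕ∞, 2 ≤ r → ∀ X, Homogeneous r (c n) X →
            Homogeneous r c₀ X)) ∧
    -- three colours, and a gap
    (∀ R : ℕ → ℕ → ℕ → ℕ → Bool,
      Computable (fun x : ℕ × ℕ × ℕ × ℕ => R x.1 x.2.1 x.2.2.1 x.2.2.2) →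
        ∃ c : ℕ → ℕ → Fin 3, Computable (fun p : ℕ × ℕ => c p.1 p.2) ∧ ∀ n,
          (Sigma3 R n → ∃ X, Homogeneous ⊤ (c n) X ∧ ComputablePred fun x => x ∈ X) ∧
          (¬ Sigma3 R n → ∀ X, Homogeneous ⊤ (c n) X →
            (∀ T : ℕ → ℕ → ℕ → ℕ → ℕ → Bool,
              Computable (fun x : ℕ × ℕ × ℕ × ℕ × ℕ => T x.1 x.2.1 x.2.2.1 x.2.2.2.1 x.2.2.2.2) →
                X ≠ {n | ∃ a, ∀ b, ∃ t, ∀ u, T n a b t u = true}) ∧
            ∀ T : ℕ → ℕ → ℕ → ℕ → ℕ → ℕ → Bool,
              Computable (fun x : ℕ × ℕ × ℕ × ℕ × ℕ × ℕ =>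
                T x.1 x.2.1 x.2.2.1 x.2.2.2.1 x.2.2.2.2.1 x.2.2.2.2.2) →
                ∃ f : ℕ → ℕ, TuringReducible (fun n => Part.some (f n)) (char X) ∧
                  ∀ q, ¬ ∀ m, (∃ a, ∀ b, ∃ t, ∀ u, T q m a b t u = true) ↔ m = f q)) ∧
    -- the upper bound
    (∀ (r : ℕ∞) (k : ℕ) (c : ℕ → ℕ → Fin k), Computable (fun p : ℕ × ℕ => c p.1 p.2) →
      ∃ R : ℕ → ℕ → ℕ → ℕ → Bool,
        Computable (fun x : ℕ × ℕ × ℕ × ℕ => R x.1 x.2.1 x.2.2.1 x.2.2.2) ∧
        ∀ n, (∃ X, Homogeneous r (c n) X ∧ ComputablePred fun x => x ∈ X) ↔ Sigma3 R n) := by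
  have hpos : ∀ {k : ℕ} {c₀ : ℕ → Fin k} (_ : Computable c₀) {R : ℕ → ℕ → ℕ → ℕ → Bool}
      (_ : Computable (fun x : ℕ × ℕ × ℕ × ℕ => R x.1 x.2.1 x.2.2.1 x.2.2.2)) (n : ℕ),
      Sigma3 R n → ∃ X, Homogeneous ⊤ (Pool.Agent.Q332.HinIndex.col R c₀ n) X ∧
        ComputablePred fun x => x ∈ X := by
    intro k c₀ hc R hR n hn
    obtain ⟨X, ⟨h1, h2, j, h3⟩, h4⟩ := Pool.Agent.Q332.HinIndex.pos hR hc hn
    exact ⟨X, ⟨h1, h2, j, fun F hF hne _ => h3 F hF hne⟩, h4⟩
  refine ⟨?_, ?_, ?_⟩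
  · intro k c₀ hc R hR
    refine ⟨Pool.Agent.Q332.HinIndex.col R c₀, Pool.Agent.Q332.HinIndex.c_col hR hc,
      fun n => ⟨hpos hc hR n, fun hn r hr X hX => ?_⟩⟩
    exact Pool.Agent.Q332.HinIndex.neg hn hr hX
  · intro R hR
    let c₀ : ℕ → Fin 2 := fun m => if col (D3k W0 3) m = true then 1 else 0
    have hc : Computable c₀ := by
      have h1 : Computable fun b : Bool => (if b = true then 1 else 0 : Fin 2) :=
        (Primrec.dom_finite _).to_comp
      exact h1.comp (c_col (c_D3k c_W0 3))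
    refine ⟨Pool.Agent.Q332.HinIndex.col R c₀, Pool.Agent.Q332.HinIndex.c_col hR hc,
      fun n => ⟨hpos hc hR n, fun hn X hX => ?_⟩⟩
    obtain ⟨hinf, h0, j, hj⟩ := Pool.Agent.Q332.HinIndex.neg hn le_top hX
    have hB : ∃ i, ∀ F : Finset ℕ, (F : Set ℕ) ⊆ X → F.Nonempty →
        col (D3k W0 3) (∑ n ∈ F, n) = i := by
      refine ⟨decide (j = 1), fun F hF hne => ?_⟩
      have h1 : c₀ (∑ x ∈ F, x) = j := hj F hF hne le_top
      rw [← h1]
      show col (D3k W0 3) (∑ n ∈ F, n) =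
        decide ((if col (D3k W0 3) (∑ x ∈ F, x) = true then 1 else 0 : Fin 2) = 1)
      cases col (D3k W0 3) (∑ n ∈ F, n) <;> rfl
    obtain ⟨V, hV, hY, hV2⟩ := hyp_FS hinf h0 hB (k := 3) (by omega)
    refine ⟨fun T hT hXR => ?_, fun T hT => ?_⟩
    · exact no_sigma4 (k := 3) le_rfl hV (zero_notMem_FS h0) hY hV2 (c_RFS hT) (FS_sig4 hXR)
    · obtain ⟨f, hf1, hf2⟩ := dnc (k := 3) le_rfl hV (zero_notMem_FS h0) hY hV2 re_FS
        re_not_FS hT
      exact ⟨f, Pool.Agent.Helper446.Oracle.turingReducible_fun_iff.2 hf1, hf2⟩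
  · intro r k c hc
    exact Pool.Agent.Q332.HinIndex.upper r hc

end Pool.Agent.Results.MP_69fea5_lc.IndexSet
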