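import Pool.Agent.Q332.HinProx

/-!
# Hindman's theorem and jointly recurrent points

Let `c` be a finite colouring. A point `y` is jointly recurrent with `c` if at arbitrarily large
positions `m` there is a long interval on which `c` agrees with `y`, and on which both repeat the
beginning of `y`. The Auslander-Ellis theorem gives such a `y` for every `c` (a uniformly
recurrent point which is proximal to `c` is jointly recurrent with `c`).

1. For every oracle `A` which computes `c`: `A` computes a point which is jointly recurrent with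
`c` if and only if `A` solves Hindman's theorem for all translates of `c` at the same time (with
the list of the colours); in this case `A` computes a solution of Hindman's theorem for `c`.
2. Uniformly recurrent points proximal to `c` are jointly recurrent with `c`.
3. There is a computable colouring `c` with 8 colours such that every jointly recurrent point of
`c` computes the double jump `0''`.
4. If `c` is recurrent from some position on, or contains arbitrarily long factors of one fixed
period at arbitrarily large positions, or has only countably many limit points, then `c` has a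
solution computable in `c`.
-/

set_option autoImplicit false

namespace Pool.Agent.Results.MP_69fea5_lc.JointRecurrence

open Pool.Agent.Y545.HM.St Pool.Agent.H645R2.HT

/-- The point `y` is jointly recurrent with `c`. -/
def JointlyRecurrent {k : ℕ} (c y : ℕ → Fin k) : Prop :=
  ∀ L N, ∃ m, N ≤ m ∧ ∀ j ≤ L, c (m + j) = y (m + j) ∧ y (m + j) = y j

/-- The point `y` is uniformly recurrent. -/
def UniformlyRecurrent {k : ℕ} (y : ℕ → Fin k) : Prop :=
  ∀ L, ∃ G, ∀ N, ∃ m, N ≤ m ∧ m ≤ N + G ∧ ∀ j ≤ L, y (m + j) = y j

/-- The points `c` and `y` agree on arbitrarily long intervals arbitrarily far out. -/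
def Proximal {k : ℕ} (c y : ℕ → Fin k) : Prop :=
  ∀ L N, ∃ m, N ≤ m ∧ ∀ j ≤ L, c (m + j) = y (m + j)

/-- The sequence `x` of positive integers solves Hindman's theorem for all translates of `c`
simultaneously, with colours `y`. -/
def Iterated {k : ℕ} (c : ℕ → Fin k) (x : ℕ → ℕ) (y : ℕ → Fin k) : Prop :=
  StrictMono x ∧ 0 < x 0 ∧ ∀ (j : ℕ) (F : Finset ℕ), F.Nonempty → (∀ i ∈ F, j ≤ i) →
    c (j + ∑ i ∈ F, x i) = y j

/-- The limit points of the translates of `c`. -/
def LimitPoints {k : ℕ} (c : ℕ → Fin k) : Set (ℕ → Fin k) :=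
  {z | ∀ L N, ∃ m, N ≤ m ∧ ∀ j ≤ L, c (m + j) = z j}

/-- **Hindman's theorem and jointly recurrent points.** -/
theorem result :
    -- joint recurrence is the problem for all translates, and gives a solution
    (∀ (A : Set ℕ) (k : ℕ) (c : ℕ → Fin k), Computes A (fun n => Part.some (c n).val) →
      ((∃ y : ℕ → Fin k, Computes A (fun n => Part.some (y n).val) ∧ JointlyRecurrent c y) ↔
        ∃ (x : ℕ → ℕ) (y : ℕ → Fin k), Computes A (fun n => Part.some (x n)) ∧
          Computes A (fun n => Part.some (y n).val) ∧ Iterated c x y) ∧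
      ((∃ y : ℕ → Fin k, Computes A (fun n => Part.some (y n).val) ∧ JointlyRecurrent c y) →
        ∃ X, Solution c X ∧ Computes A (char X))) ∧
    -- the points of the Auslander-Ellis theorem
    (∀ (k : ℕ) (c y : ℕ → Fin k), UniformlyRecurrent y → Proximal c y →
      JointlyRecurrent c y) ∧
    -- a computable colouring all of whose jointly recurrent points compute the double jump
    (∃ c : ℕ → Fin 8, Computable c ∧
      ∀ (A : Set ℕ) (y : ℕ → Fin 8), Computes A (fun n => Part.some (y n).val) →
        JointlyRecurrent c y →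
          ∀ R : ℕ → ℕ → ℕ → Bool, Computable (fun q : ℕ × ℕ × ℕ => R q.1 q.2.1 q.2.2) →
            Computes A (char {n | ∃ a, ∀ b, R n a b = true})) ∧
    -- classes of colourings with solutions computable in the colouring
    (∀ (A : Set ℕ) (k : ℕ) (c : ℕ → Fin k), Computes A (fun n => Part.some (c n).val) →
      ((∃ M, ∀ L N, ∃ m, N ≤ m ∧ ∀ j, M ≤ j → j ≤ L → c (m + j) = c j) ∨
        (∃ p, 0 < p ∧ ∀ L N, ∃ m, N ≤ m ∧ ∀ j ≤ L, c (m + j + p) = c (m + j)) ∨
        (LimitPoints c).Countable) →
      ∃ X, Solution c X ∧ Computes A (char X)) := by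
  refine ⟨?_, ?_, ?_, ?_⟩
  · intro A k c hc
    refine ⟨⟨?_, ?_⟩, ?_⟩
    · rintro ⟨y, hy, h⟩
      obtain ⟨x, h1, h2, h3, h4⟩ :=
        Pool.Agent.Q332.HinProx.exists_seq (computes_col.1 hc) (computes_col.1 hy) h
      exact ⟨x, y, computes_fun.2 h1, hy, h2, h3, h4⟩
    · rintro ⟨x, y, -, hy, h2, -, h4⟩
      exact ⟨y, hy, Pool.Agent.Q332.HinProx.jr_of_seq h2 h4⟩
    · rintro ⟨y, hy, h⟩
      exact Pool.Agent.Q332.HinProx.solution_of_jr (computes_col.1 hc) (computes_col.1 hy) h
  · intro k c y hu hp
    exact Pool.Agent.Q332.HinProx.jr_of_proximal hu hp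
  · classical
    have hcomp : Computable fun n => pack3 (b0 n, C (g1 W0) n, C (g2 W0 p0) n) := by
      have h1 : Computable pack3 := (Primrec.dom_finite pack3).to_comp
      refine h1.comp (c_b0.pair (Computable.pair (c_C (c_g1 c_W0)) (c_C ?_)))
      exact c_g2 c_W0 c_p0 (by fun_prop) (by fun_prop) (by fun_prop) (by fun_prop)
    refine ⟨fun n => pack3 (b0 n, C (g1 W0) n, C (g2 W0 p0) n), hcomp, ?_⟩
    intro A y hy hjr R hR
    obtain ⟨X, ⟨hinf, h0, i, hi⟩, hXA⟩ := Pool.Agent.Q332.HinProx.solution_of_jr
      (Pool.Agent.Y545.HM.Gr.of_comp hcomp) (computes_col.1 hy) hjr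
    have hc' : Const3 (fun n => pack3 (b0 n, C (g1 W0) n, C (g2 W0 p0) n)) X :=
      ⟨i, fun F hF hne _ => hi F hF hne⟩
    have hp := ps_of h0
    have hu := hc'.map unpack3
    simp only [unpack_pack3] at hu
    have hb0 : Const3 b0 X := hu.map fun q => q.1
    have hb1 : Const3 (C (g1 W0)) X := hu.map fun q => q.2.1
    have hb2 : Const3 (C (g2 W0 p0)) X := hu.map fun q => q.2.2
    have hf := hb0.far hinf hp
    have hM := modOK mon_W0 hp hf (hb1.eq2 hp)
    obtain ⟨k1, k2⟩ := computes c_W0 c_p0 hp hf hM (hb2.eq3 hp)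
    obtain ⟨e, he⟩ := sigma2_univ hR
    have h1 : Pool.Agent.Helper446.Oracle.REIn X
        (fun n => n ∈ {n | ∃ a, ∀ b, R n a b = true}) :=
      (k1.comp (f := fun n : ℕ => Nat.pair e n) (by fun_prop)).of_eq fun n => (he n).symm
    have h2 : Pool.Agent.Helper446.Oracle.REIn X
        (fun n => n ∉ {n | ∃ a, ∀ b, R n a b = true}) :=
      (k2.comp (f := fun n : ℕ => Nat.pair e n) (by fun_prop)).of_eq fun n =>
        not_congr (he n).symm
    have h3 : Computes X (char {n | ∃ a, ∀ b, R n a b = true}) := computes_set.2 ⟨h1, h2⟩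
    exact TuringReducible.trans h3 hXA
  · rintro A k c hc (⟨M, h⟩ | ⟨p, hp, h⟩ | h)
    · exact Pool.Agent.Q332.HinProx.solution_of_recurrent (computes_col.1 hc) M h
    · exact Pool.Agent.Q332.HinProx.solution_of_periodic (computes_col.1 hc) hp h
    · exact Pool.Agent.Q332.HinProx.solution_of_countable (computes_col.1 hc) h

end Pool.Agent.Results.MP_69fea5_lc.JointRecurrence
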