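import Pool.Agent.Q314.HT2.Fin

/-!
A computable colouring of the positive integers with two colours all of whose solutions of
Hindman's theorem compute the double jump `0''`. The same for sums of three, four or five distinct
elements, if the set contains multiples of all powers of `3`.
-/

namespace Pool.Agent.Results.MP_69fea5_lc.TwoColours

open Pool.Agent.H645R2.HT Pool.Agent.Q314.HT2

/-- The characteristic function of a set of natural numbers, as a (total) partial function. -/
noncomputable def char (B : Set ℕ) : ℕ →. ℕ := by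
  classical exact fun n => Part.some (if n ∈ B then 1 else 0)

/-- There is a computable colouring `c` of the positive integers with two colours such that every
infinite set `X` of positive integers, all of whose sums of distinct elements get the same colour,
computes every `Σ⁰₂` set of natural numbers (equivalently, computes `0''`). The same holds if `X`
contains multiples of all powers of `3` and all its sums of three, four or five distinct elements
get the same colour. -/
theorem result :
    ∃ c : ℕ → Bool, Computable c ∧
      ∀ X : Set ℕ, X.Infinite → 0 ∉ X →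
        ((∃ i, ∀ F : Finset ℕ, (F : Set ℕ) ⊆ X → F.Nonempty → c (∑ n ∈ F, n) = i) ∨
          ((∀ N, ∃ x ∈ X, 3 ^ N ∣ x) ∧
            ∃ i, ∀ F : Finset ℕ, (F : Set ℕ) ⊆ X → 3 ≤ F.card → F.card ≤ 5 →
              c (∑ n ∈ F, n) = i)) →
        ∀ R : ℕ → ℕ → ℕ → Bool, Computable (fun q : ℕ × ℕ × ℕ => R q.1 q.2.1 q.2.2) →
          TuringReducible (char {n | ∃ a, ∀ b, R n a b = true}) (char X) := by
  classical
  refine ⟨col W0 p0, c_col c_W0 c_p0, ?_⟩
  intro X hinf h0 hc R hR
  have key : Pool.Agent.Helper446.Oracle.REIn X (fun y => A W0 p0 y) ∧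
      Pool.Agent.Helper446.Oracle.REIn X (fun y => ¬ A W0 p0 y) := by
    rcases hc with hc | ⟨hd, hc⟩
    · exact computes' mon_W0 c_W0 c_p0 (blocks_RF hinf h0) (hom_RF hinf h0 hc) re_RF
    · exact computes' mon_W0 c_W0 c_p0 (blocks_RE1 h0 hd) (hom_RE1 h0 hd hc) re_RE1
  obtain ⟨k1, k2⟩ := key
  obtain ⟨e, he⟩ := sigma2_univ hR
  have h1 : Pool.Agent.Helper446.Oracle.REIn X
      (fun n => n ∈ {n | ∃ a, ∀ b, R n a b = true}) :=
    (k1.comp (f := fun n : ℕ => Nat.pair e n) (by fun_prop)).of_eq fun n => (he n).symm
  have h2 : Pool.Agent.Helper446.Oracle.REIn X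
      (fun n => n ∉ {n | ∃ a, ∀ b, R n a b = true}) :=
    (k2.comp (f := fun n : ℕ => Nat.pair e n) (by fun_prop)).of_eq fun n =>
      not_congr (he n).symm
  exact Pool.Agent.Helper446.Oracle.turingReducible_iff.2 ⟨h1, h2⟩

end Pool.Agent.Results.MP_69fea5_lc.TwoColours
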